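import Pool.Agent.H93.TH.C4

/-!
# [H93 TH FG] Words in the free group and the automorphism `Phi a b : a ↦ a b a, b ↦ a⁻¹`

Proofs. `io_inj`: `io w = FreeGroup.mk (w.map (fun c => (c, true)))`, and a word with all signs `true`
is reduced (induction with `FreeGroup.reduce.cons`), `FreeGroup.reduce` of equal elements are equal
(`FreeGroup.toWord_mk`); `map` of an injective function is injective. Other way: a homomorphism from
the free monoid is injective, e.g. `FreeMonoid.toFreeGroup`-like lemmas of Mathlib if they exist.
`Phi_Phi`: two homomorphisms `FreeGroup α →* FreeGroup α` which agree on the generators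
(`FreeGroup.ext_hom`). `cn_Phi`: the homomorphism `ex c : FreeGroup α →* Multiplicative ℤ` (exponent
sum of the letter `c`), `ex c (io w) = cn c w`; `ex a ∘ Phi = 2 ex a - ex b` and `ex b ∘ Phi = ex a` hold
for `io w` for words `w` over `{a, b}`: induction on `w` with `io (c :: w) = of c * io w`.
`Phi_rev`: let `th : FreeGroup α →* FreeGroup α` be `of c ↦ (of c)⁻¹`; `io w.reverse = (th (io w))⁻¹`
(induction), `Phi (th g) = th (Phi g)` for all `g` (generators `a, b` and the others), so
`io w'.reverse = (th (io w'))⁻¹ = (th (Phi (io w)))⁻¹ = (Phi (th (io w)))⁻¹ = Phi (io w.reverse)`.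
-/

set_option autoImplicit false

namespace Pool.Agent.H93.TW

variable {α : Type} {a b : α}

/-- a word as an element of the free group -/
def io (w : List α) : FreeGroup α := (w.map FreeGroup.of).prod

theorem io_nil : io ([] : List α) = 1 := rfl

theorem io_cons (c : α) (w : List α) : io (c :: w) = FreeGroup.of c * io w := by simp [io]

theorem io_append (w w' : List α) : io (w ++ w') = io w * io w' := by simp [io]

private theorem io_mk (w : List α) : io w = FreeGroup.mk (w.map fun c => (c, true)) := by
  induction w with
  | nil => rfl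
  | cons c w ih =>
    rw [io_cons, ih, List.map_cons]
    rw [FreeGroup.of, FreeGroup.mul_mk]
    rfl

private theorem pos_red (w : List α) : FreeGroup.IsReduced (w.map fun c => (c, true)) := by
  induction w with
  | nil => exact List.IsChain.nil
  | cons c w ih =>
    cases w with
    | nil => exact List.IsChain.singleton _
    | cons d w =>
      rw [List.map_cons, List.map_cons]
      exact List.IsChain.cons_cons (fun _ => rfl) ih

theorem io_inj : Function.Injective (io : List α → FreeGroup α) := by
  classical
  intro w w' h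
  rw [io_mk, io_mk] at h
  have h1 := congrArg FreeGroup.toWord h
  rw [FreeGroup.toWord_mk, FreeGroup.toWord_mk, (FreeGroup.isReduced_iff_reduce_eq).1 (pos_red w),
    (FreeGroup.isReduced_iff_reduce_eq).1 (pos_red w')] at h1
  refine List.map_injective_iff.2 ?_ h1
  intro c d hcd
  exact (Prod.mk.inj hcd).1

open Classical in
/-- the automorphism `a ↦ a b a, b ↦ a⁻¹`, other letters fixed -/
noncomputable def Phi (a b : α) : FreeGroup α →* FreeGroup α :=
  FreeGroup.lift (fun c => if c = a then FreeGroup.of a * FreeGroup.of b * FreeGroup.of a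
    else if c = b then (FreeGroup.of a)⁻¹ else FreeGroup.of c)

theorem Phi_a : Phi a b (FreeGroup.of a) = FreeGroup.of a * FreeGroup.of b * FreeGroup.of a := by
  simp [Phi]

theorem Phi_b (hab : a ≠ b) : Phi a b (FreeGroup.of b) = (FreeGroup.of a)⁻¹ := by
  simp [Phi, hab.symm]

theorem Phi_c {c : α} (ha : c ≠ a) (hb : c ≠ b) :
    Phi a b (FreeGroup.of c) = FreeGroup.of c := by
  simp [Phi, ha, hb]

theorem Phi_Phi (hab : a ≠ b) (g : FreeGroup α) : Phi b a (Phi a b g) = g := by
  have h1 : (Phi b a).comp (Phi a b) = MonoidHom.id (FreeGroup α) := by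
    ext c
    simp only [MonoidHom.comp_apply, MonoidHom.id_apply]
    by_cases ha : c = a
    · subst ha
      rw [Phi_a, map_mul, map_mul, Phi_b hab.symm, Phi_a]
      group
    · by_cases hb : c = b
      · subst hb
        rw [Phi_b hab, map_inv, Phi_b hab.symm, inv_inv]
      · rw [Phi_c ha hb, Phi_c hb ha]
  have h2 := DFunLike.congr_fun h1 g
  simpa using h2

open Classical in
/-- exponent sum of the letter `c` -/
private noncomputable def ex (c : α) : FreeGroup α →* Multiplicative ℤ :=
  FreeGroup.lift fun d => if d = c then Multiplicative.ofAdd 1 else 1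

private theorem ex_self (c : α) : ex c (FreeGroup.of c) = Multiplicative.ofAdd 1 := by
  simp [ex]

private theorem ex_ne {c d : α} (h : d ≠ c) : ex c (FreeGroup.of d) = 1 := by
  simp [ex, h]

private theorem ex_io (c : α) (w : List α) :
    Multiplicative.toAdd (ex c (io w)) = (cn c w : ℤ) := by
  induction w with
  | nil => simp [io_nil, cn_nil]
  | cons d w ih =>
    rw [io_cons, map_mul, toAdd_mul, ih]
    by_cases h : d = c
    · subst h
      rw [ex_self, cn_cons_self, toAdd_ofAdd]
      push_cast
      ring
    · rw [ex_ne h, cn_cons_ne h, toAdd_one, zero_add]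

private theorem ex_Phi (hab : a ≠ b) {w : List α} (ho : ∀ c ∈ w, c = a ∨ c = b) :
    Multiplicative.toAdd (ex a (Phi a b (io w))) = 2 * (cn a w : ℤ) - cn b w ∧
    Multiplicative.toAdd (ex b (Phi a b (io w))) = (cn a w : ℤ) := by
  induction w with
  | nil => simp [io_nil, cn_nil]
  | cons d w ih =>
    obtain ⟨i1, i2⟩ := ih fun c hc => ho c (List.mem_cons_of_mem _ hc)
    rw [io_cons, map_mul (Phi a b), map_mul (ex a), map_mul (ex b), toAdd_mul, toAdd_mul, i1, i2]
    rcases ho d List.mem_cons_self with rfl | rfl
    · have p1 : Multiplicative.toAdd (ex d (Phi d b (FreeGroup.of d))) = 2 := by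
        rw [Phi_a, (ex d).map_mul, (ex d).map_mul, ex_self, ex_ne hab.symm, mul_one]
        rfl
      have p2 : Multiplicative.toAdd (ex b (Phi d b (FreeGroup.of d))) = 1 := by
        rw [Phi_a, (ex b).map_mul, (ex b).map_mul, ex_self, ex_ne hab, mul_one, one_mul]
        rfl
      rw [p1, p2, cn_cons_self, cn_cons_ne hab]
      push_cast
      constructor <;> ring
    · have p1 : Multiplicative.toAdd (ex a (Phi a d (FreeGroup.of d))) = -1 := by
        rw [Phi_b hab, (ex a).map_inv, ex_self]
        rfl
      have p2 : Multiplicative.toAdd (ex d (Phi a d (FreeGroup.of d))) = 0 := by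
        rw [Phi_b hab, (ex d).map_inv, ex_ne hab, inv_one]
        rfl
      rw [p1, p2, cn_cons_self, cn_cons_ne hab.symm]
      push_cast
      constructor <;> ring

theorem cn_Phi (hab : a ≠ b) {w w' : List α} (ho : ∀ c ∈ w, c = a ∨ c = b)
    (h : io w' = Phi a b (io w)) :
    (cn a w' : ℤ) = 2 * cn a w - cn b w ∧ (cn b w' : ℤ) = cn a w := by
  obtain ⟨h1, h2⟩ := ex_Phi hab ho
  rw [← h, ex_io] at h1 h2
  exact ⟨h1, h2⟩

/-- every letter is inverted -/
private noncomputable def th (α : Type) : FreeGroup α →* FreeGroup α :=
  FreeGroup.lift fun c => (FreeGroup.of c)⁻¹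

private theorem th_of (c : α) : th α (FreeGroup.of c) = (FreeGroup.of c)⁻¹ := by
  simp [th]

private theorem io_reverse (w : List α) : io w.reverse = (th α (io w))⁻¹ := by
  induction w with
  | nil => simp [io_nil]
  | cons c w ih =>
    rw [List.reverse_cons, io_append, ih, io_cons c [], io_nil, mul_one, io_cons c w, map_mul,
      th_of, mul_inv_rev, inv_inv]

private theorem Phi_th (hab : a ≠ b) (g : FreeGroup α) :
    Phi a b (th α g) = th α (Phi a b g) := by
  have h1 : (Phi a b).comp (th α) = (th α).comp (Phi a b) := by
    ext c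
    simp only [MonoidHom.comp_apply]
    by_cases ha : c = a
    · subst ha
      rw [th_of, map_inv, Phi_a, map_mul, map_mul, th_of, th_of]
      group
    · by_cases hb : c = b
      · subst hb
        rw [th_of, map_inv, Phi_b hab, map_inv, th_of]
      · rw [th_of, map_inv, Phi_c ha hb, th_of]
  exact DFunLike.congr_fun h1 g

theorem Phi_rev (hab : a ≠ b) {w w' : List α} (h : io w' = Phi a b (io w)) :
    io w'.reverse = Phi a b (io w.reverse) := by
  rw [io_reverse, io_reverse, map_inv, Phi_th hab, h]

end Pool.Agent.H93.TW
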