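import Pool.Agent.H93.TH.Nice

/-!
# [H93 TH C4] Not all words of a full set are balanced

`cn c w` is the number of letters `c` in `w`.

Proof of `exists_unbalanced`. Suppose `cn a w = cn b w` for the three words; `N` = sum of the
lengths; `Z = {w | w ≠ [] ∧ w.length ≤ N ∧ letters in {a,b} ∧ cn a w = cn b w ∧ no proper non-empty
initial segment p of w has cn a p = cn b p}`. `Z` is finite (subset of the words of length `≤ N` with
letters in `{a,b}`; the alphabet `α` may be infinite, so use e.g. the image of
`{l : List Bool | l.length ≤ N}` under `map (fun t => if t then a else b)`), `PreFree` (clear from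
the definition). Every word `w` over `{a,b}` with `cn a w = cn b w`, `|w| ≤ N`, is in `Star Z`:
strong induction on the length: if `w ≠ []` take the shortest non-empty initial segment `p` with
`cn a p = cn b p` (`Nat.find`), `w = p ++ w'`, `cn a w' = cn b w'`. So `X ⊆ Star Z`, `LF` gives
`[a] ∈ Z`, but `cn a [a] = 1 ≠ 0 = cn b [a]`.
-/

set_option autoImplicit false

namespace Pool.Agent.H93.TW

variable {α : Type} {a b : α}

open Classical in
/-- the number of letters `c` in `w` -/
noncomputable def cn (c : α) (w : List α) : ℕ := w.countP (fun d => decide (d = c))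

theorem cn_nil (c : α) : cn c ([] : List α) = 0 := by simp [cn]

theorem cn_append (c : α) (w w' : List α) : cn c (w ++ w') = cn c w + cn c w' := by
  simp [cn, List.countP_append]

theorem cn_cons_self (c : α) (w : List α) : cn c (c :: w) = cn c w + 1 := by simp [cn]

theorem cn_cons_ne {c d : α} (h : d ≠ c) (w : List α) : cn c (d :: w) = cn c w := by simp [cn, h]

/-- the auxiliary code: minimal balanced words -/
private def c4Z (a b : α) (N : ℕ) : Set (List α) :=
  {w | w ≠ [] ∧ w.length ≤ N ∧ (∀ c ∈ w, c = a ∨ c = b) ∧ cn a w = cn b w ∧
    ∀ p, p <+: w → p ≠ [] → p ≠ w → cn a p ≠ cn b p}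

private theorem c4_star (N n : ℕ) (hn : n ≤ N) : ∀ w : List α, w.length ≤ n →
    (∀ c ∈ w, c = a ∨ c = b) → cn a w = cn b w → w ∈ Star (c4Z a b N) := by
  induction n using Nat.strong_induction_on with
  | _ n ih =>
    intro w hw ho hb
    by_cases h0 : w = []
    · rw [h0]
      exact Star.nil_mem _
    have hlen : 1 ≤ w.length := by
      rcases Nat.eq_zero_or_pos w.length with h | h
      · exact absurd (List.length_eq_zero_iff.1 h) h0
      · exact h
    classical
    have hex : ∃ k, 1 ≤ k ∧ cn a (w.take k) = cn b (w.take k) :=
      ⟨w.length, hlen, by rw [List.take_length]; exact hb⟩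
    obtain ⟨hk1, hk2⟩ := Nat.find_spec hex
    have hmin := fun m (hm : m < Nat.find hex) => Nat.find_min hex hm
    generalize Nat.find hex = k at hk1 hk2 hmin
    have hkw : k ≤ w.length := by
      by_contra hc
      refine hmin w.length (by omega) ⟨hlen, ?_⟩
      rw [List.take_length]
      exact hb
    have hpl : (w.take k).length = k := by
      rw [List.length_take]
      omega
    have hZ : w.take k ∈ c4Z a b N := by
      refine ⟨?_, by omega, fun c hc => ho c (List.mem_of_mem_take hc), hk2, ?_⟩
      · intro h
        rw [h] at hpl
        simp at hpl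
        omega
      · intro q hq hq0 hqp hqe
        have hql : q.length ≤ k := by
          have := hq.length_le
          omega
        have hqlt : q.length < k := by
          rcases Nat.lt_or_ge q.length k with h | h
          · exact h
          · exact absurd (hq.eq_of_length (by omega)) hqp
        have hqw : q = w.take q.length := by
          have h1 : q <+: w := hq.trans (List.take_prefix k w)
          exact List.prefix_iff_eq_take.1 h1
        refine hmin q.length hqlt ⟨?_, ?_⟩
        · rcases Nat.eq_zero_or_pos q.length with h | h
          · exact absurd (List.length_eq_zero_iff.1 h) hq0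
          · exact h
        · rw [← hqw]
          exact hqe
    have hsplit : w.take k ++ w.drop k = w := List.take_append_drop k w
    rw [← hsplit]
    refine Star.append (Star.of_mem hZ) (ih (n - k) (by omega) (by omega) _ ?_ ?_ ?_)
    · rw [List.length_drop]
      omega
    · intro c hc
      exact ho c (List.mem_of_mem_drop hc)
    · have h1 := cn_append a (w.take k) (w.drop k)
      have h2 := cn_append b (w.take k) (w.drop k)
      rw [hsplit] at h1 h2
      omega

theorem exists_unbalanced (hab : a ≠ b) {x y z : List α} (h : Full a b {x, y, z}) :
    ∃ w ∈ [x, y, z], cn a w ≠ cn b w := by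
  by_contra hcon
  push Not at hcon
  have hbal : ∀ w ∈ ({x, y, z} : Set (List α)), cn a w = cn b w := by
    intro w hw
    simp only [Set.mem_insert_iff, Set.mem_singleton_iff] at hw
    exact hcon w (by simpa using hw)
  have hN : ∀ w ∈ ({x, y, z} : Set (List α)), w.length ≤ x.length + y.length + z.length := by
    intro w hw
    simp only [Set.mem_insert_iff, Set.mem_singleton_iff] at hw
    rcases hw with rfl | rfl | rfl <;> omega
  have hfin : (c4Z a b (x.length + y.length + z.length)).Finite := by
    classical
    refine ((List.finite_length_le Bool (x.length + y.length + z.length)).image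
      (fun l => l.map (fun t : Bool => if t = true then a else b))).subset ?_
    rintro w ⟨-, hl, ho, -⟩
    refine ⟨w.map (fun c => decide (c = a)), ?_, ?_⟩
    · show (List.map _ w).length ≤ _
      rw [List.length_map]
      exact hl
    · show List.map _ (List.map _ w) = w
      rw [List.map_map]
      conv_rhs => rw [← List.map_id w]
      refine List.map_congr_left fun c hc => ?_
      rcases ho c hc with h1 | h1
      · simp [h1]
      · simp [h1, Ne.symm hab]
  have hpf : PreFree (c4Z a b (x.length + y.length + z.length)) := by
    refine ⟨fun h0 => h0.1 rfl, ?_⟩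
    intro u hu v hv huv
    by_contra hne
    exact hv.2.2.2.2 u huv hu.1 hne hu.2.2.2.1
  have hX : ({x, y, z} : Set (List α)) ⊆ Star (c4Z a b (x.length + y.length + z.length)) := by
    intro w hw
    exact c4_star _ w.length (hN w hw) w le_rfl (h.ov w hw) (hbal w hw)
  obtain ⟨ha, -⟩ := h.lf _ hfin hpf hX
  have h1 := ha.2.2.2.1
  rw [cn_cons_self, cn_cons_ne hab, cn_nil, cn_nil] at h1
  omega

end Pool.Agent.H93.TW
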