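import Pool.Agent.H93.TW.Fin

/-!
# Full sets of words: definitions and first properties

`LF a b X`: every finite set `Z` without initial segments (`PreFree`) with `X ⊆ Z*` contains the
words `a` and `b`.  `RF` is the same for final segments. `Full`: both, and the words of `X` are
words over `{a, b}`.
-/

set_option autoImplicit false

namespace Pool.Agent.H93.TW


variable {α : Type}

/-- left fullness -/
def LF (a b : α) (X : Set (List α)) : Prop :=
  ∀ Z : Set (List α), Z.Finite → PreFree Z → X ⊆ Star Z → [a] ∈ Z ∧ [b] ∈ Z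

/-- right fullness -/
def RF (a b : α) (X : Set (List α)) : Prop :=
  ∀ Z : Set (List α), Z.Finite → SufFree Z → X ⊆ Star Z → [a] ∈ Z ∧ [b] ∈ Z

/-- the words of `X` are words over `{a, b}` -/
def Over (a b : α) (X : Set (List α)) : Prop := ∀ w ∈ X, ∀ c ∈ w, c = a ∨ c = b

structure Full (a b : α) (X : Set (List α)) : Prop where
  ov : Over a b X
  lf : LF a b X
  rf : RF a b X

variable {a b : α} {X Y Z : Set (List α)}

theorem star_unit (hZ : PreFree Z) {x t : List α} (hx : x ∈ Star Z) (hxt : x ++ t ∈ Star Z) :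
    t ∈ Star Z := by
  obtain ⟨l, hl, rfl⟩ := hx
  induction l with
  | nil => simpa using hxt
  | cons z l ih =>
    apply ih (fun x hx => hl x (by simp [hx]))
    obtain ⟨l2, hl2, e⟩ := hxt
    cases l2 with
    | nil =>
      exfalso
      simp only [List.flatten_nil, List.flatten_cons, List.append_assoc] at e
      have := (List.append_eq_nil_iff.1 e.symm).1
      exact hZ.1 (this ▸ hl z (by simp))
    | cons z2 l2 =>
      simp only [List.flatten_cons, List.append_assoc] at e
      have h1 : z2 <+: z ++ (l.flatten ++ t) := ⟨l2.flatten, e⟩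
      have h2 : z <+: z ++ (l.flatten ++ t) := List.prefix_append _ _
      have hz2 : z2 ∈ Z := hl2 z2 (by simp)
      have hz : z ∈ Z := hl z (by simp)
      have : z2 = z := by
        rcases List.prefix_or_prefix_of_prefix h1 h2 with h | h
        · exact hZ.2 _ hz2 _ hz h
        · exact (hZ.2 _ hz _ hz2 h).symm
      subst this
      exact ⟨l2, fun x hx => hl2 x (by simp [hx]), List.append_cancel_left e⟩

theorem star_letter (hZ : [] ∉ Z) {c : α} (h : [c] ∈ Star Z) : [c] ∈ Z := by
  obtain ⟨l, hl, e⟩ := h
  cases l with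
  | nil => simp at e
  | cons z l =>
    have hz : z ∈ Z := hl z (by simp)
    cases z with
    | nil => exact absurd hz hZ
    | cons d z =>
      simp only [List.flatten_cons, List.cons_append, List.cons.injEq] at e
      have h2 := (List.append_eq_nil_iff.1 e.2).1
      rw [h2, e.1] at hz
      exact hz

theorem star_rev_iff {w : List α} : w.reverse ∈ Star (rev Z) ↔ w ∈ Star Z := by
  constructor
  · intro h
    have := Star.rev h
    rwa [List.reverse_reverse, rev_rev] at this
  · exact fun h => Star.rev h

theorem rev_finite (h : Z.Finite) : (rev Z).Finite := by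
  have : rev Z = List.reverse '' Z := by
    ext w
    simp only [mem_rev, Set.mem_image]
    constructor
    · intro hw; exact ⟨w.reverse, hw, by simp⟩
    · rintro ⟨x, hx, rfl⟩; simpa using hx
  rw [this]; exact h.image _

theorem PreFree.sufFree (h : PreFree Z) : SufFree (rev Z) := by
  refine ⟨fun h0 => h.1 (by simpa [mem_rev] using h0), fun x hx y hy hxy => ?_⟩
  have := h.2 x.reverse hx y.reverse hy (List.reverse_prefix.2 hxy)
  exact List.reverse_injective this

theorem star_unit' (hZ : SufFree Z) {x t : List α} (hx : x ∈ Star Z) (hxt : t ++ x ∈ Star Z) :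
    t ∈ Star Z := by
  have h1 := Star.rev hx
  have h2 := Star.rev hxt
  rw [List.reverse_append] at h2
  have := star_unit hZ.preFree h1 h2
  exact star_rev_iff.1 this

theorem subset_star_rev (h : X ⊆ Star Z) : rev X ⊆ Star (rev Z) := by
  intro w hw
  have := Star.rev (h hw)
  rwa [List.reverse_reverse] at this

theorem LF.rev (h : LF a b X) : RF a b (rev X) := by
  intro Z hf hZ hX
  have := h (Pool.Agent.H93.TW.rev Z) (rev_finite hf) hZ.preFree (by
    have := subset_star_rev hX; rwa [rev_rev] at this)
  simpa [mem_rev] using this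

theorem RF.rev (h : RF a b X) : LF a b (rev X) := by
  intro Z hf hZ hX
  have := h (Pool.Agent.H93.TW.rev Z) (rev_finite hf) hZ.sufFree (by
    have := subset_star_rev hX; rwa [rev_rev] at this)
  simpa [mem_rev] using this

theorem Over.rev (h : Over a b X) : Over a b (rev X) := fun w hw c hc =>
  h w.reverse hw c (by simpa using hc)

theorem Full.rev (h : Full a b X) : Full a b (rev X) := ⟨h.ov.rev, h.rf.rev, h.lf.rev⟩

theorem LF.swap (h : LF a b X) : LF b a X := fun Z hf hZ hX => (h Z hf hZ hX).symm

theorem RF.swap (h : RF a b X) : RF b a X := fun Z hf hZ hX => (h Z hf hZ hX).symm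

theorem Over.swap (h : Over a b X) : Over b a X := fun w hw c hc => (h w hw c hc).symm

theorem Full.swap (h : Full a b X) : Full b a X := ⟨h.ov.swap, h.lf.swap, h.rf.swap⟩

theorem star_trans (h : X ⊆ Star Y) (h' : Y ⊆ Star Z) : X ⊆ Star Z :=
  h.trans (Star.star h')

theorem LF.mono (h : LF a b X) (hXY : X ⊆ Star Y) : LF a b Y :=
  fun Z hf hZ hY => h Z hf hZ (star_trans hXY hY)

theorem RF.mono (h : RF a b X) (hXY : X ⊆ Star Y) : RF a b Y :=
  fun Z hf hZ hY => h Z hf hZ (star_trans hXY hY)

theorem Full.mono (h : Full a b X) (hXY : X ⊆ Star Y) (hY : Over a b Y) : Full a b Y :=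
  ⟨hY, h.lf.mono hXY, h.rf.mono hXY⟩

theorem triple_subset {x y z : List α} (hx : x ∈ Star Z) (hy : y ∈ Star Z) (hz : z ∈ Star Z) :
    ({x, y, z} : Set (List α)) ⊆ Star Z := by
  intro w hw
  simp only [Set.mem_insert_iff, Set.mem_singleton_iff] at hw
  rcases hw with rfl | rfl | rfl
  · exact hx
  · exact hy
  · exact hz

theorem over_triple {x y z : List α} (hx : ∀ c ∈ x, c = a ∨ c = b) (hy : ∀ c ∈ y, c = a ∨ c = b)
    (hz : ∀ c ∈ z, c = a ∨ c = b) : Over a b ({x, y, z} : Set (List α)) := by
  intro w hw
  simp only [Set.mem_insert_iff, Set.mem_singleton_iff] at hw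
  rcases hw with rfl | rfl | rfl
  · exact hx
  · exact hy
  · exact hz

/-- upwards -/
theorem lf_up {x t z : List α} (h : LF a b {x, t, z}) : LF a b {x, x ++ t, z} := by
  intro Z hf hZ hX
  have hx : x ∈ Star Z := hX (by simp)
  exact h Z hf hZ (triple_subset hx (star_unit hZ hx (hX (by simp))) (hX (by simp)))

/-- downwards -/
theorem Full.down {x t z : List α} (h : Full a b {x, x ++ t, z}) : Full a b {x, t, z} := by
  refine h.mono (triple_subset (Star.of_mem (by simp))
    (Star.append (Star.of_mem (by simp)) (Star.of_mem (by simp))) (Star.of_mem (by simp))) ?_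
  refine over_triple (h.ov x (by simp)) ?_ (h.ov z (by simp))
  intro c hc
  exact h.ov (x ++ t) (by simp) c (by simp [hc])

/-- three incomparable words -/
theorem tri (hab : a ≠ b) (h : LF a b X) {p1 p2 p3 : List α}
    (ho : Over a b ({p1, p2, p3} : Set (List α))) (hX : X ⊆ Star {p1, p2, p3})
    (h12 : Inc p1 p2) (h13 : Inc p1 p3) (h23 : Inc p2 p3) : False := by
  obtain ⟨ha, hb⟩ := h _ (Set.toFinite _) (preFree_triple h12 h13 h23) hX
  have key : ∀ p : List α, p ∈ ({p1, p2, p3} : Set (List α)) → p = [a] ∨ p = [b] := by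
    intro p hp
    have hp0 : p ≠ [] := by
      rintro rfl
      simp only [Set.mem_insert_iff, Set.mem_singleton_iff] at hp
      rcases hp with h | h | h
      · exact h12.ne_nil h.symm
      · exact h12.symm.ne_nil h.symm
      · exact h13.symm.ne_nil h.symm
    obtain ⟨c, w, rfl⟩ := List.exists_cons_of_ne_nil hp0
    have hpf := preFree_triple h12 h13 h23
    rcases ho _ hp c (by simp) with rfl | rfl
    · left; exact (hpf.2 _ ha _ hp (by simp)).symm
    · right; exact (hpf.2 _ hb _ hp (by simp)).symm
  rcases key p1 (by simp) with h1 | h1 <;> rcases key p2 (by simp) with h2 | h2 <;>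
    rcases key p3 (by simp) with h3 | h3
  · exact h12.ne (h1.trans h2.symm)
  · exact h12.ne (h1.trans h2.symm)
  · exact h13.ne (h1.trans h3.symm)
  · exact h23.ne (h2.trans h3.symm)
  · exact h23.ne (h2.trans h3.symm)
  · exact h13.ne (h1.trans h3.symm)
  · exact h12.ne (h1.trans h2.symm)
  · exact h12.ne (h1.trans h2.symm)

/-- two incomparable words -/
theorem two (h : LF a b X) {p1 p2 : List α} (hX : X ⊆ Star {p1, p2}) (h12 : Inc p1 p2)
    (hab : a ≠ b) : (p1 = [a] ∧ p2 = [b]) ∨ (p1 = [b] ∧ p2 = [a]) := by
  have hpf : PreFree ({p1, p2} : Set (List α)) := by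
    refine ⟨?_, ?_⟩
    · simp only [Set.mem_insert_iff, Set.mem_singleton_iff, not_or]
      exact ⟨h12.ne_nil.symm, h12.symm.ne_nil.symm⟩
    · intro x hx y hy hxy
      simp only [Set.mem_insert_iff, Set.mem_singleton_iff] at hx hy
      rcases hx with rfl | rfl <;> rcases hy with rfl | rfl
      · rfl
      · exact absurd hxy h12.1
      · exact absurd hxy h12.2
      · rfl
  obtain ⟨ha, hb⟩ := h _ (Set.toFinite _) hpf hX
  simp only [Set.mem_insert_iff, Set.mem_singleton_iff] at ha hb
  rcases ha with rfl | rfl <;> rcases hb with hb | hb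
  · exact absurd (by simpa using hb.symm) hab
  · left; exact ⟨rfl, hb.symm⟩
  · right; exact ⟨hb.symm, rfl⟩
  · exact absurd (by simpa using hb.symm) hab

end Pool.Agent.H93.TW
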