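import Pool.Agent.H93.TH.Full

/-!
# Nice words, alternating words, permutations of triples
-/

set_option autoImplicit false

namespace Pool.Agent.H93.TW

variable {α : Type} {a b : α}

/-- runs of length at most two, first and last run of length one -/
def Nice (w : List α) : Prop :=
  2 ≤ w.length ∧ (∀ c, ¬ [c, c] <+: w) ∧ (∀ c, ¬ [c, c] <:+ w) ∧ (∀ c, ¬ [c, c, c] <:+: w)

theorem Nice.append {x y : List α} (hx : Nice x) (hy : Nice y) : Nice (x ++ y) := by
  obtain ⟨hx1, hx2, hx3, hx4⟩ := hx
  obtain ⟨hy1, hy2, hy3, hy4⟩ := hy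
  refine ⟨by simp; omega, ?_, ?_, ?_⟩
  · intro c h
    exact hx2 c (List.prefix_of_prefix_length_le h (List.prefix_append _ _) (by simpa using hx1))
  · intro c h
    exact hy3 c (List.suffix_of_suffix_length_le h (List.suffix_append _ _) (by simpa using hy1))
  · rintro c ⟨u, v, e⟩
    rw [List.append_assoc] at e
    rcases Nat.lt_or_ge u.length x.length with h | h
    · obtain ⟨r, hr⟩ : u <+: x := List.prefix_of_prefix_length_le ⟨_, e⟩ (List.prefix_append _ _) h.le
      rw [← hr, List.append_assoc] at e
      have e2 := List.append_cancel_left e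
      match r, hr, e2 with
      | [], hr, _ => rw [List.append_nil] at hr; rw [hr] at h; omega
      | [c1], hr, e2 =>
        simp only [List.cons_append, List.nil_append, List.cons.injEq] at e2
        exact hy2 c ⟨v, by rw [← e2.2]; rfl⟩
      | [c1, c2], hr, e2 =>
        simp only [List.cons_append, List.nil_append, List.cons.injEq] at e2
        exact hx3 c ⟨u, by rw [← hr, ← e2.1, ← e2.2.1]⟩
      | c1 :: c2 :: c3 :: r, hr, e2 =>
        simp only [List.cons_append, List.nil_append, List.cons.injEq] at e2
        exact hx4 c ⟨u, r, by rw [← hr, ← e2.1, ← e2.2.1, ← e2.2.2.1]; simp⟩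
    · obtain ⟨r, hr⟩ : x <+: u := List.prefix_of_prefix_length_le (List.prefix_append _ _) ⟨_, e⟩ h
      rw [← hr, List.append_assoc] at e
      have e2 := List.append_cancel_left e
      exact hy4 c ⟨r, v, by rw [← e2]; simp⟩

/-- the alternating word of length `n` starting with `c` -/
def alt (c d : α) : ℕ → List α
  | 0 => []
  | n + 1 => c :: alt d c n

theorem alt_length (c d : α) (n : ℕ) : (alt c d n).length = n := by
  induction n generalizing c d with
  | zero => rfl
  | succ n ih => simp [alt, ih]

theorem alt_no_two {c d : α} (hcd : c ≠ d) (n : ℕ) (e : α) (u v : List α) :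
    u ++ (e :: e :: v) ≠ alt c d n := by
  induction n generalizing c d u with
  | zero => cases u <;> simp [alt]
  | succ n ih =>
    intro h
    cases u with
    | nil =>
      cases n with
      | zero => simp [alt] at h
      | succ n =>
        simp only [alt, List.nil_append, List.cons.injEq] at h
        exact hcd (h.1.symm.trans h.2.1)
    | cons x u =>
      simp only [alt, List.cons_append, List.cons.injEq] at h
      exact ih hcd.symm u h.2

theorem nice_alt {c d : α} (hcd : c ≠ d) {n : ℕ} (hn : 2 ≤ n) : Nice (alt c d n) := by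
  refine ⟨by rw [alt_length]; exact hn, ?_, ?_, ?_⟩
  · rintro e ⟨v, h⟩
    exact alt_no_two hcd n e [] v (by simpa using h)
  · rintro e ⟨u, h⟩
    exact alt_no_two hcd n e u [] (by simpa using h)
  · rintro e ⟨u, v, h⟩
    exact alt_no_two hcd n e u (e :: v) (by rw [← h]; simp)

theorem alt_append_even (c d : α) (m n : ℕ) : alt c d (2 * m) ++ alt c d n = alt c d (2 * m + n) := by
  induction m with
  | zero => simp [alt]
  | succ m ih =>
    have e1 : 2 * (m + 1) = (2 * m) + 1 + 1 := by ring
    have e2 : 2 * (m + 1) + n = (2 * m + n) + 1 + 1 := by ring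
    rw [e1, show 2 * m + 1 + 1 + n = (2 * m + n) + 1 + 1 by ring]
    simp only [alt, List.cons_append, ih]

theorem alt_append_odd (c d : α) (m n : ℕ) :
    alt c d (2 * m + 1) ++ alt d c n = alt c d (2 * m + 1 + n) := by
  rw [← alt_append_even c d m 1, List.append_assoc]
  have : alt c d 1 ++ alt d c n = alt c d (1 + n) := by
    rw [Nat.add_comm]; simp [alt]
  rw [this, alt_append_even]; congr 1; ring

/-! ## Triples as lists up to order -/

theorem set_of_perm {x y z u v w : List α} (h : [x, y, z].Perm [u, v, w]) :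
    ({x, y, z} : Set (List α)) = {u, v, w} := by
  ext t
  have := h.mem_iff (a := t)
  simpa using this

theorem len_of_perm {x y z u v w : List α} (h : [x, y, z].Perm [u, v, w]) :
    x.length + y.length + z.length = u.length + v.length + w.length := by
  have := (h.map List.length).sum_eq
  simp at this
  omega

theorem all_of_perm {P : List α → Prop} {x y z u v w : List α} (h : [x, y, z].Perm [u, v, w]) :
    (P x ∧ P y ∧ P z) ↔ (P u ∧ P v ∧ P w) := by
  constructor
  · rintro ⟨h1, h2, h3⟩
    have : ∀ t ∈ [u, v, w], P t := by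
      intro t ht
      have := h.mem_iff.2 ht
      simp at this
      rcases this with rfl | rfl | rfl <;> assumption
    exact ⟨this u (by simp), this v (by simp), this w (by simp)⟩
  · rintro ⟨h1, h2, h3⟩
    have : ∀ t ∈ [x, y, z], P t := by
      intro t ht
      have := h.mem_iff.1 ht
      simp at this
      rcases this with rfl | rfl | rfl <;> assumption
    exact ⟨this x (by simp), this y (by simp), this z (by simp)⟩

/-- the six orders -/
theorem perm_cases {x y z u v w : List α} (h : [x, y, z].Perm [u, v, w]) :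
    (u = x ∧ v = y ∧ w = z) ∨ (u = x ∧ v = z ∧ w = y) ∨ (u = y ∧ v = x ∧ w = z) ∨
    (u = y ∧ v = z ∧ w = x) ∨ (u = z ∧ v = x ∧ w = y) ∨ (u = z ∧ v = y ∧ w = x) := by
  have hu : u ∈ [x, y, z] := h.mem_iff.2 (by simp)
  simp only [List.mem_cons, List.not_mem_nil, or_false] at hu
  have two : ∀ {p q r s : List α}, [p, q].Perm [r, s] → (r = p ∧ s = q) ∨ (r = q ∧ s = p) := by
    intro p q r s h
    have hr : r ∈ [p, q] := h.mem_iff.2 (by simp)
    simp only [List.mem_cons, List.not_mem_nil, or_false] at hr
    rcases hr with rfl | rfl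
    · have := (List.perm_cons r).1 h
      have := List.singleton_perm_singleton.1 this
      left; exact ⟨rfl, this.symm⟩
    · have h2 : [r, p].Perm [r, s] := (List.Perm.swap p r []).trans h
      have := (List.perm_cons r).1 h2
      have := List.singleton_perm_singleton.1 this
      right; exact ⟨rfl, this.symm⟩
  rcases hu with rfl | rfl | rfl
  · rcases two ((List.perm_cons u).1 h) with ⟨rfl, rfl⟩ | ⟨rfl, rfl⟩
    · exact Or.inl ⟨rfl, rfl, rfl⟩
    · exact Or.inr (Or.inl ⟨rfl, rfl, rfl⟩)
  · have h2 : [u, x, z].Perm [u, v, w] := (List.Perm.swap x u [z]).trans h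
    rcases two ((List.perm_cons u).1 h2) with ⟨rfl, rfl⟩ | ⟨rfl, rfl⟩
    · exact Or.inr (Or.inr (Or.inl ⟨rfl, rfl, rfl⟩))
    · exact Or.inr (Or.inr (Or.inr (Or.inl ⟨rfl, rfl, rfl⟩)))
  · have h2 : [u, x, y].Perm [u, v, w] := by
      refine List.Perm.trans ?_ h
      have : [x, y, u].Perm ([u] ++ [x, y]) := by
        have := List.perm_append_comm (l₁ := [x, y]) (l₂ := [u])
        simpa using this
      exact this.symm
    rcases two ((List.perm_cons u).1 h2) with ⟨rfl, rfl⟩ | ⟨rfl, rfl⟩
    · exact Or.inr (Or.inr (Or.inr (Or.inr (Or.inl ⟨rfl, rfl, rfl⟩))))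
    · exact Or.inr (Or.inr (Or.inr (Or.inr (Or.inr ⟨rfl, rfl, rfl⟩))))

end Pool.Agent.H93.TW
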